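import Pool.Agent.H465.EQ.L
import Pool.Graph.R_seed8.R399.TW.Cor
import Pool.Graph.R_seed8.W388.TW.Parts
import Pool.Graph.R_seed8.W388.TW.Final

/-!
# The twists of a newform of weight two
-/

set_option autoImplicit false

open Filter Topology Set MeasureTheory UpperHalfPlane MatrixGroups CongruenceSubgroup

namespace Pool.Agent.H465.NF

open ArithmeticFunction (vonMangoldt)
open Pool.Agent.R399.TW
open Pool.Agent.Y767.CA (GGc FEc)
open Pool.Agent.H465.EQ (Lf)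
open scoped ComplexConjugate

/-! ### Dirichlet series -/

/-- upper and lower bounds on `Re s ≥ 5/4` -/
theorem edge_of_ser {c : ℕ → ℂ} (hL : Lin c) : ∃ B : ℝ, 0 ≤ B ∧ ∀ (ψ : ℕ → ℂ) (F : ℂ → ℂ),
    (∀ k n, ψ (k * n) = ψ k * ψ n) → ψ 1 = 1 → (∀ n, ‖ψ n‖ ≤ 1) →
    (∀ s : ℂ, 1 < s.re → F s = LSeries (tw ψ (E c)) s) →
    ∀ s : ℂ, 5 / 4 ≤ s.re → Real.exp (-B) ≤ ‖F s‖ ∧ ‖F s‖ ≤ Real.exp B := by
  have hsum := (hL.summ (σ := 5 / 4) (by norm_num))
  set S : ℝ := ∑' n : ℕ, E (fun k => ‖c k‖) n * (n : ℝ) ^ (-(5 / 4) : ℝ) with hS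
  have hnn : ∀ n : ℕ, 0 ≤ E (fun k => ‖c k‖) n * (n : ℝ) ^ (-(5 / 4) : ℝ) := fun n =>
    mul_nonneg (E_nonneg (fun k => norm_nonneg _) n) (by positivity)
  have hS1 : 1 ≤ S := by
    have := hsum.le_tsum 1 (fun n _ => hnn n)
    rwa [E_one, Nat.cast_one, Real.one_rpow, one_mul] at this
  have key : ∀ κ : ℕ → ℂ, (∀ n, ‖κ n‖ ≤ ‖c n‖) → ∀ s : ℂ, 5 / 4 ≤ s.re →
      ‖LSeries (E κ) s‖ ≤ S := by
    intro κ hκ s hs
    refine tsum_of_norm_bounded hsum.hasSum fun n => ?_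
    rcases eq_or_ne n 0 with rfl | hn
    · simp [E_zero]
    · have hn1 : (1 : ℝ) ≤ n := by exact_mod_cast Nat.one_le_iff_ne_zero.mpr hn
      have hn0 : (0 : ℝ) < n := by linarith
      rw [LSeries.norm_term_eq, if_neg hn, div_eq_mul_inv, ← Real.rpow_neg hn0.le]
      have h1 := (norm_E_le κ n).trans
        (E_mono (κ := fun k => ‖κ k‖) (κ' := fun k => ‖c k‖) (fun n => norm_nonneg _) hκ n)
      have h2 : (n : ℝ) ^ (-s.re) ≤ (n : ℝ) ^ (-(5 / 4) : ℝ) :=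
        Real.rpow_le_rpow_of_exponent_le hn1 (by linarith)
      have h3 := E_nonneg (κ := fun k => ‖c k‖) (fun k => norm_nonneg _) n
      gcongr
  refine ⟨Real.log S, Real.log_nonneg hS1, fun ψ F hmul hone hle hser s hs => ?_⟩
  have hS0 : 0 < S := by linarith
  have e1 : tw ψ (E c) = E (fun k => ψ k * c k) := by
    funext n
    exact E_twist c ψ hone hmul n
  have hLt : Lin (fun k => ψ k * c k) := hL.twist hle
  have hle' : ∀ n, ‖ψ n * c n‖ ≤ ‖c n‖ := by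
    intro n
    rw [norm_mul]
    calc ‖ψ n‖ * ‖c n‖ ≤ 1 * ‖c n‖ := mul_le_mul_of_nonneg_right (hle n) (norm_nonneg _)
      _ = _ := one_mul _
  have h1 := key _ hle' s hs
  have h2 := key (fun n => -(ψ n * c n)) (fun n => by rw [norm_neg]; exact hle' n) s hs
  have h3 := hLt.inv (s := s) (by linarith)
  rw [hser s (by linarith), e1, Real.exp_neg, Real.exp_log hS0]
  refine ⟨?_, h1⟩
  have h4 : ‖LSeries (E fun k => ψ k * c k) s‖ * ‖LSeries (E fun n => -(ψ n * c n)) s‖ = 1 := by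
    rw [← norm_mul, h3, norm_one]
  have h5 : (0 : ℝ) ≤ ‖LSeries (E fun k => ψ k * c k) s‖ := norm_nonneg _
  rw [inv_le_iff_one_le_mul₀ hS0]
  calc (1 : ℝ) = ‖LSeries (E fun k => ψ k * c k) s‖ * ‖LSeries (E fun n => -(ψ n * c n)) s‖ :=
        h4.symm
    _ ≤ ‖LSeries (E fun k => ψ k * c k) s‖ * S := mul_le_mul_of_nonneg_left h2 h5

/-! ### the gamma factor -/

/-- the parameters of weight two -/
noncomputable def mu2 : Fin 2 → ℂ := ![1 / 2, 3 / 2]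

lemma mu2_re (i : Fin 2) : 0 ≤ (mu2 i).re := by
  fin_cases i <;> simp [mu2] <;> norm_num

lemma mu2_re' (i : Fin 2) : -1 / 2 < (mu2 i).re := by
  linarith [mu2_re i]

lemma mu2_im (i : Fin 2) : (mu2 i).im = 0 := by
  fin_cases i <;> simp [mu2]

lemma mu2_norm (i : Fin 2) : ‖mu2 i‖ + 3 ≤ 5 := by
  fin_cases i
  · simp [mu2]; norm_num
  · simp [mu2]; norm_num

lemma GG_eq {N : ℕ} [NeZero N] {q : ℕ} (hq : 1 ≤ q) (s : ℂ) :
    GGc ((N : ℝ) * (q : ℝ) ^ 2) mu2 s =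
      ((2 * (2 * Real.pi) ^ (-(1 / 2) : ℝ) : ℝ) : ℂ) * W388.GG 2 N q s := by
  have hN : (0 : ℝ) < N := by exact_mod_cast Nat.pos_of_ne_zero (NeZero.ne N)
  have hq0 : (0 : ℝ) < q := by exact_mod_cast (show 0 < q by omega)
  have hpi := Real.pi_pos
  set x : ℝ := Real.sqrt N * q with hx
  have hx0 : 0 < x := by positivity
  have hx2 : (N : ℝ) * (q : ℝ) ^ 2 = x ^ 2 := by
    rw [hx, mul_pow, Real.sq_sqrt hN.le]
  unfold Pool.Agent.Y767.CA.GGc W388.GG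
  rw [Fin.prod_univ_two]
  have e0 : s + mu2 0 = s + 1 / 2 := by simp [mu2]
  have e1 : s + mu2 1 = s + 1 / 2 + 1 := by
    simp only [mu2, Matrix.cons_val_one, Matrix.cons_val_fin_one]
    ring
  rw [e0, e1, Complex.Gammaℝ_mul_Gammaℝ_add_one, Complex.Gammaℂ_def]
  have e2 : (((N : ℝ) * (q : ℝ) ^ 2 : ℝ) : ℂ) ^ (s / 2) = (x : ℂ) ^ s := by
    rw [hx2]
    have h1 : ((x ^ 2 : ℝ) : ℂ) = (x : ℂ) * (x : ℂ) := by push_cast; ring
    rw [h1, Complex.mul_cpow_ofReal_nonneg hx0.le hx0.le, ← Complex.cpow_add _ _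
      (Complex.ofReal_ne_zero.2 hx0.ne')]
    congr 1
    ring
  have e3 : ((x / (2 * Real.pi) : ℝ) : ℂ) ^ s = (x : ℂ) ^ s * ((2 * Real.pi : ℝ) : ℂ) ^ (-s) := by
    rw [div_eq_mul_inv, Complex.ofReal_mul, Complex.mul_cpow_ofReal_nonneg hx0.le (by positivity),
      Complex.ofReal_inv, Complex.inv_cpow, Complex.cpow_neg]
    rw [Complex.arg_ofReal_of_nonneg (by positivity)]
    exact Real.pi_ne_zero.symm
  have e4 : ((2 * Real.pi : ℂ)) ^ (-(s + 1 / 2)) =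
      ((2 * Real.pi : ℝ) : ℂ) ^ (-s) * (((2 * Real.pi) ^ (-(1 / 2) : ℝ) : ℝ) : ℂ) := by
    rw [Complex.ofReal_cpow (by positivity), show -(s + 1 / 2) = -s + (((-(1 / 2) : ℝ)) : ℂ) by
      push_cast; ring]
    have h2 : ((2 * Real.pi : ℝ) : ℂ) = 2 * (Real.pi : ℂ) := by push_cast; ring
    rw [← h2, Complex.cpow_add]
    exact Complex.ofReal_ne_zero.2 (by positivity)
  have e5 : (((2 : ℤ) : ℂ) - 1) / 2 = 1 / 2 := by norm_num
  rw [e2, e3, e4, e5]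
  push_cast
  ring

lemma fec_of_FE2 {N : ℕ} [NeZero N] {q : ℕ} (hq : 1 ≤ q) {F : ℂ → ℂ} (h : W388.FE2 2 N q F) :
    FEc ((N : ℝ) * (q : ℝ) ^ 2) mu2 F := by
  refine ⟨h.diff, ?_, ?_⟩
  · obtain ⟨w, hw, hfe⟩ := h.fe
    refine ⟨w, hw, fun s hs => ?_⟩
    have him : s.im ≠ 0 := by
      have := hs 0
      rwa [mu2_im, add_zero] at this
    rw [GG_eq hq, GG_eq hq, mul_assoc, hfe s him]
    simp only [map_mul, Complex.conj_ofReal]
    ring
  · intro a b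
    obtain ⟨C, hC⟩ := h.vert a b
    refine ⟨(2 * (2 * Real.pi) ^ (-(1 / 2) : ℝ)) * C, fun s h1 h2 h3 => ?_⟩
    have him : 1 ≤ |s.im| := by
      have := h3 0
      rwa [mu2_im, add_zero] at this
    have hpi := Real.pi_pos
    rw [GG_eq hq, mul_assoc, norm_mul, Complex.norm_real, Real.norm_of_nonneg (by positivity)]
    exact mul_le_mul_of_nonneg_left (hC s h1 h2 him) (by positivity)

/-! ### the coefficients -/

section

variable {N : ℕ} {lam : ℕ → ℝ}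

/-- the coefficients of the logarithmic derivative -/
noncomputable def cc (N : ℕ) (lam : ℕ → ℝ) (n : ℕ) : ℂ := (W388.cS N lam n : ℂ)

lemma cc_sq (n : ℕ) : ‖cc N lam n‖ ^ 2 = W388.cS N lam n ^ 2 := by
  unfold cc
  rw [Complex.norm_real, Real.norm_eq_abs, sq_abs]

lemma E_cc (h : W388.HeckeSeq N lam) (n : ℕ) : (lam n : ℂ) = E (cc N lam) n := by
  refine E_unique (cc N lam) (f := fun n => (lam n : ℂ)) ?_ ?_ (fun n => ?_) n
  · simp [h.zero]
  · simp [h.one]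
  · rcases eq_or_ne n 0 with rfl | hn
    · rw [Nat.cast_zero, Real.log_zero, Nat.divisorsAntidiagonal_zero, Finset.sum_empty,
        RCLike.ofReal_zero, mul_zero]
    · have h1 := Pool.Agent.W482.TW.t_id1 N lam h n hn
      have h2 := congrArg (fun x : ℝ => (x : ℂ)) h1
      change ((lam n : ℝ) : ℂ) * ((Real.log n : ℝ) : ℂ) = ∑ p ∈ n.divisorsAntidiagonal,
        ((vonMangoldt p.1 : ℝ) : ℂ) * cc N lam p.1 * (lam p.2 : ℂ)
      rw [Nat.sum_divisorsAntidiagonal (fun a b => ((vonMangoldt a : ℝ) : ℂ) * cc N lam a *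
        (lam b : ℂ))]
      unfold cc
      push_cast at h2 ⊢
      exact h2

open W688.TW in
/-- the data -/
theorem cc_data (HS : W388.HeckeSeq N lam) (HR : W388.RSLim lam) :
    (∀ σ : ℝ, 1 < σ → Summable fun n : ℕ => vonMangoldt n * ‖cc N lam n‖ ^ 2 * (n : ℝ) ^ (-σ)) ∧
    Tendsto (fun σ : ℝ => (σ - 1) * ∑' n : ℕ, vonMangoldt n * ‖cc N lam n‖ ^ 2 * (n : ℝ) ^ (-σ))
      (𝓝[>] 1) (𝓝 1) := by
  obtain ⟨hR1, κ, hκ, hR2⟩ := HR
  set b : ℕ → ℝ := fun n => vonMangoldt n * W388.cS N lam n ^ 2 with hb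
  have hl2 : Good (fun n => lam n ^ 2) := hR1
  have hprod : ∀ σ : ℝ, 0 < σ → Summable (fun n : ℕ => W388.AA N lam n * (n : ℝ) ^ (-(1 + σ))) ∧
      RS (W388.AA N lam) σ = RS (sq N) σ * RS (fun n => lam n ^ 2) σ := fun σ hσ =>
    RS_conv (f := sq N) (g := fun n => lam n ^ 2) (AA_conv N lam) (by linarith) (sq_good hσ.le)
      (hl2 σ hσ)
  have H : Dat (W388.AA N lam) b := by
    refine ⟨fun n => ?_, fun n => ?_, ?_, ?_, fun n => ?_, fun σ hσ => (hprod σ hσ).1⟩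
    · exact Finset.sum_nonneg fun m _ => sq_nonneg _
    · exact mul_nonneg ArithmeticFunction.vonMangoldt_nonneg (sq_nonneg _)
    · simp [hb]
    · unfold W388.AA
      simp [Finset.filter_singleton, HS.one]
    · rcases Nat.eq_zero_or_pos n with rfl | hn
      · simp
      · rw [mul_comm, Pool.Agent.W482.TW.t_id2 N lam HS n hn.ne', Nat.sum_divisorsAntidiagonal
          (fun d e => b d * W388.AA N lam e)]
  have hDlim : Tendsto (fun σ => σ * RS (W388.AA N lam) σ) (𝓝[>] 0) (𝓝 (RS (sq N) 0 * κ)) := by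
    refine ((sq_tendsto N).mul hR2).congr' ?_
    filter_upwards [self_mem_nhdsWithin] with σ hσ
    rw [(hprod σ hσ).2]
    show RS (sq N) σ * (σ * RS (fun n => lam n ^ 2) σ) = _
    ring
  have hκ' : 0 < RS (sq N) 0 * κ := mul_pos (sq_pos N) hκ
  have hlim := H.lim hκ' hDlim
  have hterm : ∀ (σ : ℝ) (n : ℕ), vonMangoldt n * ‖cc N lam n‖ ^ 2 * (n : ℝ) ^ (-σ) =
      b n * (n : ℝ) ^ (-(1 + (σ - 1))) := by
    intro σ n
    rw [cc_sq, hb, show -(1 + (σ - 1)) = -σ by ring]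
  constructor
  · intro σ hσ
    simp only [hterm]
    exact H.bgood (σ - 1) (by linarith)
  · simp only [hterm]
    have hm : Tendsto (fun σ : ℝ => σ - 1) (𝓝[>] 1) (𝓝[>] 0) := by
      rw [tendsto_nhdsWithin_iff]
      constructor
      · have : Tendsto (fun σ : ℝ => σ - 1) (𝓝 1) (𝓝 (1 - 1)) :=
          (continuous_id.sub continuous_const).tendsto 1
        rw [sub_self] at this
        exact this.mono_left nhdsWithin_le_nhds
      · filter_upwards [self_mem_nhdsWithin] with σ hσ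
        have : (1 : ℝ) < σ := hσ
        show (0 : ℝ) < σ - 1
        linarith
    exact hlim.comp hm

end

/-! ### the twists -/

/-- **The twists of a newform.** -/
theorem pack {N : ℕ} [NeZero N] {f : CuspForm (Gamma0 N : Subgroup (GL (Fin 2) ℝ)) 2} {ε : ℝ}
    (hf : W388.IsNewf N 2 f ε) :
    ∃ (B : ℝ) (L : (q : ℕ) → DirichletCharacter ℂ q → ℂ → ℂ), 0 ≤ B ∧
      (∀ (q : ℕ) (χ : DirichletCharacter ℂ q), 1 ≤ q → Nat.Coprime q N → χ.IsPrimitive →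
        Lf mu2 B ((N : ℝ) * (q : ℝ) ^ 2) (L q χ) ∧ (∀ s : ℂ, 1 < s.re → L q χ s ≠ 0) ∧
        ∀ s : ℂ, 1 < s.re → HasProd (fun p : Nat.Primes =>
            (1 - χ ((p : ℕ) : ZMod q) * (W388.lamf f p : ℂ) * ((p : ℕ) : ℂ) ^ (-s) +
              (if (p : ℕ) ∣ N then 0 else
                χ ((p : ℕ) : ZMod q) ^ 2 * ((p : ℕ) : ℂ) ^ (-2 * s)))⁻¹) (L q χ s)) ∧
      Fm 2 N L := by
  have hN : 0 < N := Nat.pos_of_ne_zero (NeZero.ne N)
  have hN0 : (0 : ℝ) < N := by exact_mod_cast hN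
  have hH := W388.heckeSeq_lamf hf
  have hR := W388.p_rs N 2 (by norm_num) f ε hf
  obtain ⟨A1, hA1, d1, d2, d3⟩ := W388.p_dir N hN (W388.lamf f) hH hR
  have hsum : ∀ (q : ℕ) [NeZero q] (χ : DirichletCharacter ℂ q) (s : ℂ), 1 < s.re →
      Summable (fun n : ℕ => ‖χ (n : ZMod q) * (W388.lamf f n : ℂ) * (n : ℂ) ^ (-s)‖) := by
    intro q _ χ s hs
    exact (d3 q χ (fun s => ∑' n : ℕ, χ (n : ZMod q) * (W388.lamf f n : ℂ) * (n : ℂ) ^ (-s))
      (fun _ _ => rfl)).1 s hs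
  classical
  have hex : ∀ (q : ℕ) (χ : DirichletCharacter ℂ q), ∃ F : ℂ → ℂ,
      (1 ≤ q → Nat.Coprime q N → χ.IsPrimitive → W388.FE2 2 N q F ∧ ∀ s : ℂ, 1 < s.re →
      F s = ∑' n : ℕ, χ (n : ZMod q) * (W388.lamf f n : ℂ) * (n : ℂ) ^ (-s)) := by
    intro q χ
    by_cases h : 1 ≤ q ∧ Nat.Coprime q N ∧ χ.IsPrimitive
    · obtain ⟨h1, h2, h3⟩ := h
      have : NeZero q := ⟨by omega⟩
      obtain ⟨F, hF⟩ := W388.exists_twist Pool.Agent.W440.TW.t_twist Pool.Agent.W108.TW.t_mellin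
        (by norm_num) hf hsum q χ h3 h2
      exact ⟨F, fun _ _ _ => hF⟩
    · exact ⟨fun _ => 0, fun h1 h2 h3 => absurd ⟨h1, h2, h3⟩ h⟩
  choose L hL using hex
  obtain ⟨hS, hlim⟩ := cc_data hH hR
  have hLin : Lin (cc N (W388.lamf f)) := fun σ hσ => Pool.Agent.Y767.CA.summable_lin hS hσ
  obtain ⟨C, hC⟩ := sqb_of_lim hS hlim
  obtain ⟨B, hB, hedge⟩ := edge_of_ser hLin
  have hser : ∀ (q : ℕ) (χ : DirichletCharacter ℂ q), 1 ≤ q → Nat.Coprime q N → χ.IsPrimitive →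
      ∀ s : ℂ, 1 < s.re → L q χ s = LSeries (tw (chs χ) (E (cc N (W388.lamf f)))) s := by
    intro q χ h1 h2 h3 s hs
    rw [(hL q χ h1 h2 h3).2 s hs]
    refine tsum_congr fun n => ?_
    rcases eq_or_ne n 0 with rfl | hn
    · simp [hH.zero]
    · rw [LSeries.term_of_ne_zero hn, Complex.cpow_neg, ← div_eq_mul_inv]
      unfold tw chs
      rw [E_cc hH n]
  refine ⟨B, L, hB, fun q χ h1 h2 h3 => ⟨⟨fec_of_FE2 h1 (hL q χ h1 h2 h3).1,
    hedge (chs χ) (L q χ) (chs_mul χ) (chs_one χ) (chs_le χ) (hser q χ h1 h2 h3)⟩, ?_, ?_⟩, ?_⟩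
  · have : NeZero q := ⟨by omega⟩
    exact (d3 q χ (L q χ) (hL q χ h1 h2 h3).2).2.1
  · have : NeZero q := ⟨by omega⟩
    exact (d3 q χ (L q χ) (hL q χ h1 h2 h3).2).2.2.2.2.2
  · refine ⟨cc N (W388.lamf f), N, 3 * (1 + 5), C, hN0.le, by norm_num, hLin, hC,
      fun q χ hq hqN hχ => ⟨L q χ, ?_, fun s _ h => h, fun s h0 h1 h2 => ?_⟩⟩
    · have hRp : (0 : ℝ) < (N : ℝ) * (q : ℝ) ^ 2 := by
        have : (0 : ℝ) < q := by exact_mod_cast (show 0 < q by omega)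
        positivity
      have h4 := mem_of_fec (κ := Fin 2) hRp (μ := mu2) mu2_re' mu2_norm (by norm_num)
        (fec_of_FE2 (by omega) (hL q χ (by omega) hqN hχ).1) hLin (chs_mul χ) (chs_one χ) (chs_le χ)
        (hser q χ (by omega) hqN hχ)
      rwa [Fintype.card_fin] at h4
    · have hRp : (0 : ℝ) < (N : ℝ) * (q : ℝ) ^ 2 := by
        have : (0 : ℝ) < q := by exact_mod_cast (show 0 < q by omega)
        positivity
      exact refl_zero hRp mu2_re (fec_of_FE2 (by omega) (hL q χ (by omega) hqN hχ).1) h0 h1 h2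

end Pool.Agent.H465.NF
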