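import Pool.Agent.H465.EQ.M
import Pool.Agent.H465.NF.A
import Pool.Graph.R_seed8.W216.CY.Div

/-!
# Large sets of Dirichlet characters
-/

set_option autoImplicit false

open Filter Topology Set MeasureTheory

namespace Pool.Agent.H465.NF

open Pool.Agent.R399.TW (countq idq mem_idq card_idq Far Fm log_pow_le near_two_one)
open Pool.Agent.H465.EQ

/-- counting characters by their conductors -/
lemma cnt_le {n : ℕ} [NeZero n] (S : (q : ℕ) → DirichletCharacter ℂ q → Prop)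
    (X : Finset (DirichletCharacter ℂ n))
    (hX : ∀ χ ∈ X, S χ.conductor χ.primitiveCharacter) (D : Finset ℕ)
    (hD : ∀ χ ∈ X, χ.conductor ∈ D) : X.card ≤ ∑ d ∈ D, countq d (S d) := by
  classical
  have hn : 0 < n := Nat.pos_of_ne_zero (NeZero.ne n)
  set φ : DirichletCharacter ℂ n → (Σ q : ℕ, DirichletCharacter ℂ q) :=
    fun χ => ⟨χ.conductor, χ.primitiveCharacter⟩ with hφ
  have hinj : Function.Injective φ := by
    intro χ ψ h
    have key : ∀ (d : ℕ) (hd : d ∣ n) (α : DirichletCharacter ℂ d) (e : ℕ) (he : e ∣ n)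
        (β : DirichletCharacter ℂ e), (⟨d, α⟩ : Σ q : ℕ, DirichletCharacter ℂ q) = ⟨e, β⟩ →
        DirichletCharacter.changeLevel hd α = DirichletCharacter.changeLevel he β := by
      intro d hd α e he β h
      have h1 : d = e := congrArg Sigma.fst h
      subst h1
      have h2 : α = β := by simpa using h
      rw [h2]
    have h3 := key _ χ.conductor_dvd_level _ _ ψ.conductor_dvd_level _ h
    rwa [DirichletCharacter.changeLevel_primitiveCharacter,
      DirichletCharacter.changeLevel_primitiveCharacter] at h3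
  have hsub : X.image φ ⊆ D.biUnion (fun d => idq d (S d)) := by
    intro x hx
    rw [Finset.mem_image] at hx
    obtain ⟨χ, hχ, rfl⟩ := hx
    rw [Finset.mem_biUnion]
    refine ⟨χ.conductor, hD χ hχ, ?_⟩
    unfold Pool.Agent.R399.TW.idq
    rw [Finset.mem_map]
    refine ⟨χ.primitiveCharacter, ?_, rfl⟩
    rw [Finset.mem_filter]
    exact ⟨Finset.mem_univ _, χ.primitiveCharacter_isPrimitive, hX χ hχ⟩
  calc X.card = (X.image φ).card := (Finset.card_image_of_injective _ hinj).symm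
    _ ≤ (D.biUnion (fun d => idq d (S d))).card := Finset.card_le_card hsub
    _ ≤ ∑ d ∈ D, (idq d (S d)).card := Finset.card_biUnion_le
    _ = _ := Finset.sum_congr rfl fun d _ => card_idq d (S d)

lemma countq_le (d : ℕ) (hd : 1 ≤ d) (S : DirichletCharacter ℂ d → Prop) : countq d S ≤ d := by
  have : NeZero d := ⟨by omega⟩
  unfold Pool.Agent.R399.TW.countq
  calc {χ : DirichletCharacter ℂ d | χ.IsPrimitive ∧ S χ}.ncard ≤
        (Set.univ : Set (DirichletCharacter ℂ d)).ncard :=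
          Set.ncard_le_ncard (Set.subset_univ _) (Set.toFinite _)
    _ = Nat.card (DirichletCharacter ℂ d) := Set.ncard_univ _
    _ = d.totient := DirichletCharacter.card_eq_totient_of_hasEnoughRootsOfUnity ℂ d
    _ ≤ d := Nat.totient_le d

lemma cond_pos {n : ℕ} [NeZero n] (χ : DirichletCharacter ℂ n) : 1 ≤ χ.conductor :=
  Nat.one_le_iff_ne_zero.2 χ.conductor_ne_zero

lemma cond_le {n : ℕ} [NeZero n] (χ : DirichletCharacter ℂ n) : χ.conductor ≤ n :=
  Nat.le_of_dvd (Nat.pos_of_ne_zero (NeZero.ne n)) χ.conductor_dvd_level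

/-- few characters have a small conductor -/
lemma small_set {n : ℕ} [NeZero n] (y : ℝ) (hy : 0 ≤ y) (X : Finset (DirichletCharacter ℂ n))
    (hX : ∀ χ ∈ X, (χ.conductor : ℝ) ≤ y) : (X.card : ℝ) ≤ n.divisors.card * y := by
  classical
  have hn : n ≠ 0 := NeZero.ne n
  have h1 := cnt_le (fun _ _ => True) X (fun _ _ => trivial)
    (n.divisors.filter fun d : ℕ => (d : ℝ) ≤ y) (fun χ hχ => by
      rw [Finset.mem_filter, Nat.mem_divisors]
      exact ⟨⟨χ.conductor_dvd_level, hn⟩, hX χ hχ⟩)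
  have h2 : (∑ d ∈ n.divisors.filter (fun d : ℕ => (d : ℝ) ≤ y),
      (countq d (fun _ => True) : ℝ)) ≤ ∑ d ∈ n.divisors.filter (fun d : ℕ => (d : ℝ) ≤ y), y := by
    refine Finset.sum_le_sum fun d hd => ?_
    rw [Finset.mem_filter] at hd
    have h3 : countq d (fun _ => True) ≤ d := countq_le d (Nat.pos_of_mem_divisors hd.1) _
    have h4 : (countq d (fun _ => True) : ℝ) ≤ d := by exact_mod_cast h3
    exact h4.trans hd.2
  calc (X.card : ℝ) ≤ ((∑ d ∈ n.divisors.filter (fun d : ℕ => (d : ℝ) ≤ y),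
        countq d (fun _ => True) : ℕ) : ℝ) := by exact_mod_cast h1
    _ = ∑ d ∈ n.divisors.filter (fun d : ℕ => (d : ℝ) ≤ y), (countq d (fun _ => True) : ℝ) := by
        push_cast
        rfl
    _ ≤ _ := h2
    _ = ((n.divisors.filter (fun d : ℕ => (d : ℝ) ≤ y)).card : ℝ) * y := by
        rw [Finset.sum_const, nsmul_eq_mul]
    _ ≤ _ := by
        refine mul_le_mul_of_nonneg_right ?_ hy
        exact_mod_cast Finset.card_filter_le _ _

/-- the conductor of the twist -/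
noncomputable def Rc (N : ℕ) {n : ℕ} (χ : DirichletCharacter ℂ n) : ℝ :=
  (N : ℝ) * (χ.conductor : ℝ) ^ 2

lemma Rc_ge {N : ℕ} (hN : 1 ≤ N) {n : ℕ} [NeZero n] (χ : DirichletCharacter ℂ n) : 1 ≤ Rc N χ := by
  unfold Rc
  have h1 : (1 : ℝ) ≤ N := by exact_mod_cast hN
  have h2 : (1 : ℝ) ≤ χ.conductor := by exact_mod_cast cond_pos χ
  have h3 : (1 : ℝ) ≤ (χ.conductor : ℝ) ^ 2 := one_le_pow₀ h2
  nlinarith

lemma log_Rc {N : ℕ} (hN : 1 ≤ N) {n : ℕ} [NeZero n] (χ : DirichletCharacter ℂ n) :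
    Real.log (Rc N χ) = Real.log N + 2 * Real.log χ.conductor := by
  unfold Rc
  have h1 : (0 : ℝ) < N := by exact_mod_cast hN
  have h2 : (0 : ℝ) < χ.conductor := by exact_mod_cast cond_pos χ
  rw [Real.log_mul h1.ne' (by positivity), Real.log_pow]
  norm_num

lemma lC_up {N : ℕ} (hN : 1 ≤ N) {n : ℕ} [NeZero n] (X : Finset (DirichletCharacter ℂ n)) :
    lC X (Rc N) ≤ X.card * (1 + Real.log N + 2 * Real.log n) := by
  unfold lC
  rw [← nsmul_eq_mul]
  refine Finset.sum_le_card_nsmul _ _ _ fun χ _ => ?_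
  rw [log_Rc hN]
  have h2 : (0 : ℝ) < χ.conductor := by exact_mod_cast cond_pos χ
  have h3 : Real.log χ.conductor ≤ Real.log n :=
    Real.log_le_log h2 (by exact_mod_cast cond_le χ)
  linarith

lemma lC_nonneg {N : ℕ} (hN : 1 ≤ N) {n : ℕ} [NeZero n] (X : Finset (DirichletCharacter ℂ n)) :
    0 ≤ lC X (Rc N) :=
  Finset.sum_nonneg fun χ _ => by
    have := Real.log_nonneg (Rc_ge hN χ)
    linarith

lemma lC_low {N : ℕ} (hN : 1 ≤ N) {n : ℕ} [NeZero n] (X : Finset (DirichletCharacter ℂ n))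
    {y : ℝ} (hy : 1 ≤ y) :
    2 * ((X.card : ℝ) - n.divisors.card * y) * Real.log y ≤ lC X (Rc N) := by
  classical
  set S := X.filter fun χ => (χ.conductor : ℝ) ≤ y with hS
  have h1 : (S.card : ℝ) ≤ n.divisors.card * y :=
    small_set y (by linarith) S fun χ hχ => (Finset.mem_filter.1 hχ).2
  have hly := Real.log_nonneg hy
  have h2 : ((X \ S).card : ℝ) * (2 * Real.log y) ≤ ∑ χ ∈ X \ S, (1 + Real.log (Rc N χ)) := by
    rw [← nsmul_eq_mul]
    refine Finset.card_nsmul_le_sum _ _ _ fun χ hχ => ?_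
    rw [Finset.mem_sdiff, hS, Finset.mem_filter, not_and, not_le] at hχ
    rw [log_Rc hN]
    have h3 := Real.log_le_log (by linarith) (hχ.2 hχ.1).le
    have h4 : 0 ≤ Real.log N := Real.log_natCast_nonneg N
    linarith
  have h3 : ∑ χ ∈ X \ S, (1 + Real.log (Rc N χ)) ≤ lC X (Rc N) :=
    Finset.sum_le_sum_of_subset_of_nonneg Finset.sdiff_subset fun χ _ _ => by
      have := Real.log_nonneg (Rc_ge hN χ)
      linarith
  have h4 : ((X \ S).card : ℝ) = X.card - S.card := by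
    rw [Finset.card_sdiff_of_subset (Finset.filter_subset _ _), Nat.cast_sub
      (Finset.card_le_card (Finset.filter_subset _ _))]
  rw [h4] at h2
  calc 2 * ((X.card : ℝ) - n.divisors.card * y) * Real.log y ≤
        2 * ((X.card : ℝ) - S.card) * Real.log y := by gcongr
    _ = ((X.card : ℝ) - S.card) * (2 * Real.log y) := by ring
    _ ≤ _ := h2.trans h3

lemma ev_rpow {C e : ℝ} (he : 0 < e) {ε : ℝ} (hε : 0 < ε) :
    ∀ᶠ n : ℕ in atTop, C * (n : ℝ) ^ (-e) ≤ ε := by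
  have h1 : Tendsto (fun n : ℕ => C * (n : ℝ) ^ (-e)) atTop (𝓝 (C * 0)) :=
    ((tendsto_rpow_neg_atTop he).comp tendsto_natCast_atTop_atTop).const_mul C
  rw [mul_zero] at h1
  exact (h1.eventually (gt_mem_nhds hε)).mono fun n hn => hn.le

lemma ev_log (C : ℝ) {ε : ℝ} (hε : 0 < ε) : ∀ᶠ n : ℕ in atTop, C ≤ ε * Real.log n := by
  have h1 : Tendsto (fun n : ℕ => Real.log n) atTop atTop :=
    Real.tendsto_log_atTop.comp tendsto_natCast_atTop_atTop
  filter_upwards [h1.eventually_ge_atTop (C / ε)] with n hn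
  rw [div_le_iff₀ hε] at hn
  linarith

/-- **The size of the conductor.** -/
theorem sizes {N : ℕ} (hN : 1 ≤ N) {a : ℝ} (ha : 0 < a) (ha1 : a ≤ 1 / 6) : ∀ᶠ n : ℕ in atTop,
    ∀ (_ : NeZero n) (X : Finset (DirichletCharacter ℂ n)), (n : ℝ) ^ (1 - a) ≤ X.card →
      |lC X (Rc N) - 2 * (X.card * Real.log n)| ≤ 6 * a * (X.card * Real.log n) := by
  obtain ⟨C, hC, hdiv, -⟩ := Pool.Agent.W216.CY.t_div (a / 2) (by positivity)
  filter_upwards [ev_rpow (C := C) (e := a / 2) (by positivity) ha,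
    ev_log (1 + Real.log N) (ε := 2 * a) (by positivity), eventually_ge_atTop 1] with n h1 h2 h3 _ X hX
  have hn1 : (1 : ℝ) ≤ n := by exact_mod_cast h3
  have hn0 : (0 : ℝ) < n := by linarith
  have hl : 0 ≤ Real.log n := Real.log_nonneg hn1
  have hX0 : (0 : ℝ) ≤ X.card := Nat.cast_nonneg _
  set y : ℝ := (n : ℝ) ^ (1 - 2 * a) with hy
  have hy1 : 1 ≤ y := Real.one_le_rpow hn1 (by linarith)
  have hlow := lC_low hN X hy1
  have hup := lC_up hN X
  have hlogy : Real.log y = (1 - 2 * a) * Real.log n := Real.log_rpow hn0 _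
  have hsm : (n.divisors.card : ℝ) * y ≤ a * X.card := by
    calc (n.divisors.card : ℝ) * y ≤ C * (n : ℝ) ^ (a / 2) * (n : ℝ) ^ (1 - 2 * a) := by
          gcongr
          exact hdiv n h3
      _ = (C * (n : ℝ) ^ (-(a / 2))) * (n : ℝ) ^ (1 - a) := by
          rw [mul_assoc, mul_assoc, ← Real.rpow_add hn0, ← Real.rpow_add hn0]
          congr 2
          ring
      _ ≤ a * X.card := by gcongr
  rw [hlogy] at hlow
  have hb : 0 ≤ X.card * Real.log n := by positivity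
  rw [abs_le]
  constructor
  · have h4 : 2 * ((X.card : ℝ) - a * X.card) * ((1 - 2 * a) * Real.log n) ≤
        2 * ((X.card : ℝ) - n.divisors.card * y) * ((1 - 2 * a) * Real.log n) := by
      have : 0 ≤ (1 - 2 * a) * Real.log n := mul_nonneg (by linarith) hl
      gcongr
    have h5 : 2 * ((X.card : ℝ) - a * X.card) * ((1 - 2 * a) * Real.log n) =
        2 * ((1 - a) * (1 - 2 * a)) * (X.card * Real.log n) := by ring
    rw [h5] at h4
    have h6 : 1 - 3 * a ≤ (1 - a) * (1 - 2 * a) := by nlinarith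
    nlinarith [mul_le_mul_of_nonneg_right h6 hb]
  · have h4 : (X.card : ℝ) * (1 + Real.log N + 2 * Real.log n) ≤
        X.card * (2 * a * Real.log n + 2 * Real.log n) := by gcongr
    nlinarith

/-- **The exceptional characters.** -/
theorem bad_set {N : ℕ} {L : (q : ℕ) → DirichletCharacter ℂ q → ℂ → ℂ} (h : Fm 2 N L) {δ T : ℝ}
    (hδ : 0 < δ) (hδ1 : δ ≤ 1 / 2) (hT : 0 ≤ T) : ∃ C : ℝ, 0 ≤ C ∧ ∀ (n : ℕ) (_ : NeZero n),
      n.Coprime N → ∀ J : Finset (DirichletCharacter ℂ n),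
        (∀ χ ∈ J, χ.conductor = 1 ∨ Far (L χ.conductor χ.primitiveCharacter) δ T) →
        (J.card : ℝ) ≤ C * (n : ℝ) ^ (1 - δ ^ 2) := by
  classical
  obtain ⟨C₁, B, hC₁, hB, hd⟩ := near_two_one h
  obtain ⟨C₂, hC₂, hlog⟩ := log_pow_le hB (ε := δ ^ 2 / 2) (by positivity)
  obtain ⟨C₃, hC₃, hdiv, -⟩ := Pool.Agent.W216.CY.t_div (δ ^ 2 / 2) (by positivity)
  refine ⟨C₃ * (1 + C₁ * (1 + T) ^ 5 * C₂), by positivity, fun n _ hn J hJ => ?_⟩
  have hnpos : 0 < n := Nat.pos_of_ne_zero (NeZero.ne n)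
  have hn1 : (1 : ℝ) ≤ n := by exact_mod_cast hnpos
  have hn0 : (0 : ℝ) < n := by linarith
  have h1 := cnt_le (fun q χ => q = 1 ∨ Far (L q χ) δ T) J hJ n.divisors (fun χ _ => by
    rw [Nat.mem_divisors]
    exact ⟨χ.conductor_dvd_level, NeZero.ne n⟩)
  have hd2 : δ ^ 2 ≤ 1 / 4 := by nlinarith
  have hterm : ∀ d ∈ n.divisors, (countq d (fun χ => d = 1 ∨ Far (L d χ) δ T) : ℝ) ≤
      (1 + C₁ * (1 + T) ^ 5 * C₂) * (n : ℝ) ^ (1 - 3 / 2 * δ ^ 2) := by
    intro d hdn
    have hdpos := Nat.pos_of_mem_divisors hdn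
    have hdle : d ≤ n := Nat.divisor_le hdn
    have hd1 : (1 : ℝ) ≤ d := by exact_mod_cast hdpos
    have hd0 : (0 : ℝ) < d := by linarith
    have hP : 1 ≤ (n : ℝ) ^ (1 - 3 / 2 * δ ^ 2) := Real.one_le_rpow hn1 (by linarith)
    rcases Nat.lt_or_ge d 2 with h2 | h2
    · have hd1' : d = 1 := by omega
      have h3 := countq_le d hdpos (fun χ => d = 1 ∨ Far (L d χ) δ T)
      have h4 : (countq d (fun χ => d = 1 ∨ Far (L d χ) δ T) : ℝ) ≤ 1 := by
        have : countq d (fun χ => d = 1 ∨ Far (L d χ) δ T) ≤ 1 := by omega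
        exact_mod_cast this
      have h5 : 0 ≤ C₁ * (1 + T) ^ 5 * C₂ := by positivity
      nlinarith
    · have h3 : countq d (fun χ => d = 1 ∨ Far (L d χ) δ T) =
          countq d (fun χ => Far (L d χ) δ T) := by
        congr 1
        funext χ
        apply propext
        constructor
        · rintro (h | h)
          · omega
          · exact h
        · exact fun h => Or.inr h
      rw [h3]
      have hcop : Nat.Coprime d N :=
        Nat.Coprime.coprime_dvd_left (Nat.dvd_of_mem_divisors hdn) hn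
      have hll := Real.log_nonneg hd1
      calc (countq d (fun χ => Far (L d χ) δ T) : ℝ)
          ≤ C₁ * (1 + T) ^ 5 * (1 + Real.log d) ^ B * (d : ℝ) ^ (1 - 2 * δ ^ 2) :=
            hd d δ T h2 hcop hδ.le hT
        _ ≤ C₁ * (1 + T) ^ 5 * (C₂ * (d : ℝ) ^ (δ ^ 2 / 2)) * (d : ℝ) ^ (1 - 2 * δ ^ 2) := by
            gcongr
            exact hlog d hd1
        _ = C₁ * (1 + T) ^ 5 * C₂ * (d : ℝ) ^ (1 - 3 / 2 * δ ^ 2) := by
            rw [mul_assoc, mul_assoc C₂, ← Real.rpow_add hd0, ← mul_assoc]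
            congr 2
            ring
        _ ≤ (1 + C₁ * (1 + T) ^ 5 * C₂) * (n : ℝ) ^ (1 - 3 / 2 * δ ^ 2) := by
            have : (d : ℝ) ^ (1 - 3 / 2 * δ ^ 2) ≤ (n : ℝ) ^ (1 - 3 / 2 * δ ^ 2) :=
              Real.rpow_le_rpow hd0.le (by exact_mod_cast hdle) (by linarith)
            have h5 : 0 ≤ C₁ * (1 + T) ^ 5 * C₂ := by positivity
            gcongr
            linarith
  calc (J.card : ℝ) ≤ ((∑ d ∈ n.divisors,
        countq d (fun χ => d = 1 ∨ Far (L d χ) δ T) : ℕ) : ℝ) := by exact_mod_cast h1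
    _ = ∑ d ∈ n.divisors, (countq d (fun χ => d = 1 ∨ Far (L d χ) δ T) : ℝ) := by
        push_cast
        rfl
    _ ≤ n.divisors.card • ((1 + C₁ * (1 + T) ^ 5 * C₂) * (n : ℝ) ^ (1 - 3 / 2 * δ ^ 2)) :=
        Finset.sum_le_card_nsmul _ _ _ hterm
    _ ≤ (C₃ * (n : ℝ) ^ (δ ^ 2 / 2)) *
          ((1 + C₁ * (1 + T) ^ 5 * C₂) * (n : ℝ) ^ (1 - 3 / 2 * δ ^ 2)) := by
        rw [nsmul_eq_mul]
        gcongr
        exact hdiv n hnpos
    _ = C₃ * (1 + C₁ * (1 + T) ^ 5 * C₂) *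
          ((n : ℝ) ^ (δ ^ 2 / 2) * (n : ℝ) ^ (1 - 3 / 2 * δ ^ 2)) := by ring
    _ = _ := by
        rw [← Real.rpow_add hn0]
        congr 2
        ring

end Pool.Agent.H465.NF
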