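import Pool.Agent.H465.NF.B

/-!
# The product of the twists by a large set of characters
-/

set_option autoImplicit false

open Filter Topology Set MeasureTheory

namespace Pool.Agent.H465.NF

open Pool.Agent.R399.TW (countq Far Fm)
open Pool.Agent.H465.EQ
open scoped Real

/-- what is needed about the twists -/
structure Tw (N : ℕ) (B : ℝ) (L : (q : ℕ) → DirichletCharacter ℂ q → ℂ → ℂ) : Prop where
  N_pos : 1 ≤ N
  B_nn : 0 ≤ B
  lf : ∀ (q : ℕ) (χ : DirichletCharacter ℂ q), 1 ≤ q → Nat.Coprime q N → χ.IsPrimitive →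
    Lf mu2 B ((N : ℝ) * (q : ℝ) ^ 2) (L q χ)
  fm : Fm 2 N L

lemma mu2_half (i : Fin 2) : 1 / 2 ≤ (mu2 i).re := by
  fin_cases i
  · simp [mu2]
  · simp [mu2]; norm_num

variable {N : ℕ} {B : ℝ} {L : (q : ℕ) → DirichletCharacter ℂ q → ℂ → ℂ}

/-- the twist by a character, primitive or not -/
noncomputable def Lp (L : (q : ℕ) → DirichletCharacter ℂ q → ℂ → ℂ) {n : ℕ}
    (χ : DirichletCharacter ℂ n) : ℂ → ℂ := L χ.conductor χ.primitiveCharacter

lemma Tw.lfp (h : Tw N B L) {n : ℕ} [NeZero n] (hn : n.Coprime N) (χ : DirichletCharacter ℂ n) :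
    Lf mu2 B (Rc N χ) (Lp L χ) :=
  h.lf _ _ (cond_pos χ) (Nat.Coprime.coprime_dvd_left χ.conductor_dvd_level hn)
    χ.primitiveCharacter_isPrimitive

theorem fit (h : Tw N B L) {δ η T : ℝ} (hδ : 0 < δ) (hη : 0 < η) (hT : 0 ≤ T) :
    ∃ θ : ℝ, θ < 1 ∧ 5 / 6 ≤ θ ∧ ∀ᶠ n : ℕ in atTop, ∀ (_ : NeZero n), n.Coprime N →
      ∀ X : Finset (DirichletCharacter ℂ n), (n : ℝ) ^ θ ≤ X.card →
      ∃ J ⊆ X, (∀ χ ∈ X, χ ∉ J → ∀ s : ℂ, 1 / 2 + δ < s.re → |s.im| ≤ T → Lp L χ s ≠ 0) ∧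
        (X.card : ℝ) + lC J (Rc N) ≤ η * lC X (Rc N) ∧ 0 < lC X (Rc N) := by
  classical
  set δ' : ℝ := min δ (1 / 2) with hδ'
  have hδ'0 : 0 < δ' := by positivity
  have hδ'1 : δ' ≤ 1 / 2 := min_le_right _ _
  obtain ⟨C, hC, hbad⟩ := bad_set h.fm hδ'0 hδ'1 hT
  refine ⟨max (5 / 6) (1 - δ' ^ 2 / 2), ?_, le_max_left _ _, ?_⟩
  · rw [max_lt_iff]
    constructor
    · norm_num
    · have : 0 < δ' ^ 2 := by positivity
      linarith
  filter_upwards [sizes h.N_pos (a := 1 / 6) (by norm_num) le_rfl,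
    ev_rpow (C := C) (e := δ' ^ 2 / 2) (by positivity) (ε := η / 6) (by positivity),
    ev_log (1 + Real.log N) (ε := 1) one_pos, ev_log 1 (ε := η / 2) (by positivity),
    ev_log 1 (ε := 1) one_pos,
    eventually_ge_atTop 1] with n h1 h2 h3 h4 h5 h6 _ hn X hX
  have hn1 : (1 : ℝ) ≤ n := by exact_mod_cast h6
  have hn0 : (0 : ℝ) < n := by linarith
  have hX0 : (0 : ℝ) ≤ X.card := Nat.cast_nonneg _
  have hl : 0 ≤ Real.log n := Real.log_nonneg hn1
  have hXa : (n : ℝ) ^ (1 - 1 / 6 : ℝ) ≤ X.card := by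
    refine le_trans (Real.rpow_le_rpow_of_exponent_le hn1 ?_) hX
    refine le_trans ?_ (le_max_left _ _)
    norm_num
  have hXb : (n : ℝ) ^ (1 - δ' ^ 2 / 2) ≤ X.card :=
    le_trans (Real.rpow_le_rpow_of_exponent_le hn1 (le_max_right _ _)) hX
  have hX1 : (1 : ℝ) ≤ X.card := (Real.one_le_rpow hn1 (by norm_num)).trans hXa
  have hsz := (abs_le.1 (h1 inferInstance X hXa)).1
  set J := X.filter fun χ => χ.conductor = 1 ∨ Far (L χ.conductor χ.primitiveCharacter) δ' T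
    with hJ
  have hJc := hbad n inferInstance hn J fun χ hχ => (Finset.mem_filter.1 hχ).2
  refine ⟨J, Finset.filter_subset _ _, ?_, ?_, ?_⟩
  · intro χ hχ hχJ s hs1 hs2 h0
    apply hχJ
    rw [hJ, Finset.mem_filter]
    refine ⟨hχ, Or.inr ⟨s, by linarith, hs2, ?_, h0⟩⟩
    rw [abs_of_pos (by linarith)]
    have : δ' ≤ δ := min_le_left _ _
    linarith
  · have hJ1 : (J.card : ℝ) ≤ η / 6 * X.card := by
      calc (J.card : ℝ) ≤ C * (n : ℝ) ^ (1 - δ' ^ 2) := hJc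
        _ = (C * (n : ℝ) ^ (-(δ' ^ 2 / 2))) * (n : ℝ) ^ (1 - δ' ^ 2 / 2) := by
            rw [mul_assoc, ← Real.rpow_add hn0]
            congr 2
            ring
        _ ≤ η / 6 * X.card := by gcongr
    have hJ2 := lC_up h.N_pos J
    have hJ3 : (J.card : ℝ) * (1 + Real.log N + 2 * Real.log n) ≤ J.card * (3 * Real.log n) := by
      have : (0 : ℝ) ≤ J.card := Nat.cast_nonneg _
      gcongr
      linarith
    have hJ4 : (J.card : ℝ) * (3 * Real.log n) ≤ η / 6 * X.card * (3 * Real.log n) := by gcongr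
    have h7 : X.card * 1 ≤ X.card * (η / 2 * Real.log n) := mul_le_mul_of_nonneg_left h4 hX0
    have h8 : X.card * Real.log n ≤ lC X (Rc N) := by linarith
    have h9 : η * (X.card * Real.log n) ≤ η * lC X (Rc N) := mul_le_mul_of_nonneg_left h8 hη.le
    nlinarith
  · have : 0 < (X.card : ℝ) * Real.log n := by
      have : 0 < Real.log n := by linarith
      positivity
    linarith

/-- **Equidistribution.** -/
theorem chars_equid (h : Tw N B L) {g : ℂ → ℝ} (hg : Continuous g) (hgc : HasCompactSupport g)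
    {ε : ℝ} (hε : 0 < ε) :
    ∃ θ : ℝ, θ < 1 ∧ ∀ᶠ n : ℕ in atTop, ∀ (_ : NeZero n), n.Coprime N →
      ∀ X : Finset (DirichletCharacter ℂ n), (n : ℝ) ^ θ ≤ X.card →
      |zs (fun s => ∏ χ ∈ X, Lp L χ s) g - X.card * Real.log n / π * ∫ t : ℝ, g (pt t)| ≤
        ε * (X.card * Real.log n) := by
  set G : ℝ := |∫ t : ℝ, g (pt t)| with hG
  have hG0 : 0 ≤ G := abs_nonneg _
  obtain ⟨δ, η, T, hδ, hη, hT, heq⟩ := lf_equid mu2_half h.B_nn hg hgc (ε := ε / 6) (by positivity)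
  obtain ⟨θ, hθ, hθ1, hfit⟩ := fit h hδ hη hT
  set a : ℝ := min (1 / 6) (ε / (12 * (G + 1))) with ha
  have ha0 : 0 < a := by positivity
  have ha1 : a ≤ 1 / 6 := min_le_left _ _
  have ha2 : 6 * a * G ≤ ε / 2 := by
    have h1 : a ≤ ε / (12 * (G + 1)) := min_le_right _ _
    calc 6 * a * G ≤ 6 * (ε / (12 * (G + 1))) * (G + 1) := by
          have h2 : G ≤ G + 1 := by linarith
          gcongr
      _ = ε / 2 := by field_simp; norm_num
  refine ⟨max θ (1 - a), max_lt hθ (by linarith), ?_⟩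
  filter_upwards [hfit, sizes h.N_pos ha0 ha1, eventually_ge_atTop 1] with n h1 h2 h6 hn0' hn X hX
  have hn1 : (1 : ℝ) ≤ n := by exact_mod_cast h6
  have hl : 0 ≤ Real.log n := Real.log_nonneg hn1
  have hX0 : (0 : ℝ) ≤ X.card := Nat.cast_nonneg _
  obtain ⟨J, hJX, hz, hcard, hpos⟩ := h1 hn0' hn X
    (le_trans (Real.rpow_le_rpow_of_exponent_le hn1 (le_max_left _ _)) hX)
  have hsz := h2 hn0' X (le_trans (Real.rpow_le_rpow_of_exponent_le hn1 (le_max_right _ _)) hX)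
  have key := heq X J (Rc N) (Lp L) hJX (fun χ _ => Rc_ge h.N_pos χ) (fun χ _ => h.lfp hn χ) hz
    hcard hpos
  set x : ℝ := X.card * Real.log n with hx
  have hx0 : 0 ≤ x := by positivity
  set I : ℝ := ∫ t : ℝ, g (pt t) with hI
  have hpi := Real.pi_gt_three
  have e1 : lC X (Rc N) / (2 * π) * I - x / π * I = (lC X (Rc N) - 2 * x) * I / (2 * π) := by
    field_simp
  have e2 : |lC X (Rc N) / (2 * π) * I - x / π * I| ≤ ε / 2 * x := by
    rw [e1, abs_div, abs_mul, abs_of_pos (show 0 < 2 * π by positivity), div_le_iff₀ (by positivity)]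
    calc |lC X (Rc N) - 2 * x| * |I| ≤ (6 * a * x) * G := by
          rw [hG]
          exact mul_le_mul_of_nonneg_right hsz (abs_nonneg _)
      _ = (6 * a * G) * x := by ring
      _ ≤ ε / 2 * x := mul_le_mul_of_nonneg_right ha2 hx0
      _ ≤ ε / 2 * x * (2 * π) := le_mul_of_one_le_right (by positivity) (by linarith)
  have e3 : lC X (Rc N) ≤ 3 * x := by
    have := (abs_le.1 hsz).2
    have : 6 * a * x ≤ 1 * x := mul_le_mul_of_nonneg_right (by linarith) hx0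
    linarith
  have e4 : ε / 6 * lC X (Rc N) ≤ ε / 2 * x := by nlinarith
  calc |zs (fun s => ∏ χ ∈ X, Lp L χ s) g - x / π * I|
      = |(zs (fun s => ∏ χ ∈ X, Lp L χ s) g - lC X (Rc N) / (2 * π) * I) +
          (lC X (Rc N) / (2 * π) * I - x / π * I)| := by
        congr 1
        ring
    _ ≤ |zs (fun s => ∏ χ ∈ X, Lp L χ s) g - lC X (Rc N) / (2 * π) * I| +
          |lC X (Rc N) / (2 * π) * I - x / π * I| := abs_add_le _ _
    _ ≤ ε * x := by linarith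

/-- **The Lindelöf bound.** -/
theorem chars_lind (h : Tw N B L) (T₁ : ℝ) {ε : ℝ} (hε : 0 < ε) :
    ∃ θ : ℝ, θ < 1 ∧ ∀ᶠ n : ℕ in atTop, ∀ (_ : NeZero n), n.Coprime N →
      ∀ X : Finset (DirichletCharacter ℂ n), (n : ℝ) ^ θ ≤ X.card →
      ∀ s : ℂ, 1 / 2 ≤ s.re → ‖s‖ ≤ T₁ →
        ‖∏ χ ∈ X, Lp L χ s‖ ≤ Real.exp (ε * (X.card * Real.log n)) := by
  obtain ⟨δ, η, T, hδ, hη, hT, heq⟩ := lf_lind mu2_half h.B_nn (T₁ := max T₁ 0) (le_max_right _ _)
    (ε := ε / 3) (by positivity)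
  obtain ⟨θ, hθ, hθ1, hfit⟩ := fit h hδ hη hT
  refine ⟨θ, hθ, ?_⟩
  filter_upwards [hfit, sizes h.N_pos (a := 1 / 6) (by norm_num) le_rfl, eventually_ge_atTop 1]
    with n h1 h2 h6 hn0' hn X hX s hs hsT
  have hn1 : (1 : ℝ) ≤ n := by exact_mod_cast h6
  have hl : 0 ≤ Real.log n := Real.log_nonneg hn1
  have hX0 : (0 : ℝ) ≤ X.card := Nat.cast_nonneg _
  obtain ⟨J, hJX, hz, hcard, hpos⟩ := h1 hn0' hn X hX
  have hsz := h2 hn0' X (le_trans (Real.rpow_le_rpow_of_exponent_le hn1 (by linarith)) hX)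
  refine (heq X J (Rc N) (Lp L) hJX (fun χ _ => Rc_ge h.N_pos χ) (fun χ _ => h.lfp hn χ) hz
    hcard s hs (hsT.trans (le_max_left _ _))).trans (Real.exp_le_exp.2 ?_)
  have := (abs_le.1 hsz).2
  have hx0 : 0 ≤ X.card * Real.log n := by positivity
  nlinarith

end Pool.Agent.H465.NF
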