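import Pool.Agent.H465.EQ.M

/-!
# Counting zeros
-/

set_option autoImplicit false

open Filter Topology Set MeasureTheory Metric

namespace Pool.Agent.H465.NF

open Pool.Agent.H465.EQ
open scoped Real

/-- the point `1 + it` -/
noncomputable def p1 (t : ℝ) : ℂ := ⟨1, t⟩

open Classical in
/-- the sum of `g` over the zeros of `Z` with `0 < Re ρ < 2`, with multiplicity -/
noncomputable def zsum (Z : ℂ → ℂ) (g : ℂ → ℝ) : ℝ :=
  ∑ᶠ ρ : ℂ, if 0 < ρ.re ∧ ρ.re < 2 then (analyticOrderNatAt Z ρ : ℝ) * g ρ else 0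

lemma order_shift (L : ℂ → ℂ) (s : ℂ) :
    analyticOrderNatAt (fun z => L (z - 1 / 2)) (s + 1 / 2) = analyticOrderNatAt L s := by
  have hg : AnalyticAt ℂ (fun z : ℂ => z - 1 / 2) (s + 1 / 2) := by fun_prop
  have hd : deriv (fun z : ℂ => z - 1 / 2) (s + 1 / 2) ≠ 0 := by
    simp
  have h := analyticOrderAt_comp_of_deriv_ne_zero (f := L) hg hd
  unfold analyticOrderNatAt
  have h2 : (fun z : ℂ => L (z - 1 / 2)) = L ∘ (fun z : ℂ => z - 1 / 2) := rfl
  rw [h2, h]
  norm_num

lemma zsum_shift (G : ℂ → ℂ) (g : ℂ → ℝ) :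
    zsum (fun s => G (s - 1 / 2)) g = zs G (fun u => g (u + 1 / 2)) := by
  unfold zsum zs
  rw [← finsum_comp_equiv (Equiv.addRight (1 / 2 : ℂ))]
  refine finsum_congr fun u => ?_
  have h1 : (u + 1 / 2 : ℂ).re = u.re + 1 / 2 := by simp
  have e0 : (Equiv.addRight (1 / 2 : ℂ)) u = u + 1 / 2 := rfl
  by_cases h : -1 / 2 < u.re ∧ u.re < 3 / 2
  · have h' : 0 < ((Equiv.addRight (1 / 2 : ℂ)) u).re ∧
        ((Equiv.addRight (1 / 2 : ℂ)) u).re < 2 := by
      rw [e0, h1]
      exact ⟨by linarith [h.1], by linarith [h.2]⟩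
    rw [if_pos h, if_pos h', e0, order_shift]
  · have h' : ¬ (0 < ((Equiv.addRight (1 / 2 : ℂ)) u).re ∧
        ((Equiv.addRight (1 / 2 : ℂ)) u).re < 2) := by
      rw [e0, h1]
      exact fun h' => h ⟨by linarith [h'.1], by linarith [h'.2]⟩
    rw [if_neg h, if_neg h']

lemma int_shift (g : ℂ → ℝ) : ∫ t : ℝ, (fun u => g (u + 1 / 2)) (pt t) = ∫ t : ℝ, g (p1 t) := by
  congr 1
  funext t
  simp only
  congr 1
  apply Complex.ext
  · simp [pt, p1]; norm_num
  · simp [pt, p1]

lemma cont_shift {g : ℂ → ℝ} (hg : Continuous g) : Continuous fun u => g (u + 1 / 2) :=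
  hg.comp (continuous_id.add continuous_const)

lemma comp_shift {g : ℂ → ℝ} (hg : HasCompactSupport g) :
    HasCompactSupport fun u => g (u + 1 / 2) :=
  hg.comp_homeomorph (Homeomorph.addRight (1 / 2 : ℂ))

/-- the number of zeros in a set, with multiplicity -/
noncomputable def cnt (Z : ℂ → ℂ) (S : Set ℂ) : ℕ := ∑ᶠ ρ ∈ S, analyticOrderNatAt Z ρ

section

variable {Z : ℂ → ℂ} (hZ : Differentiable ℂ Z) {z₀ : ℂ} (h0 : Z z₀ ≠ 0)

include hZ in
lemma ord_zero {u : ℂ} (h : analyticOrderNatAt Z u ≠ 0) : Z u = 0 := by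
  by_contra h1
  apply h
  unfold analyticOrderNatAt
  rw [(hZ.analyticAt u).analyticOrderAt_eq_zero.2 h1]
  rfl

open Classical in
include hZ h0 in
lemma cnt_eq {S : Set ℂ} {M : ℝ} (hS : ∀ u ∈ S, ‖u‖ ≤ M) :
    (cnt Z S : ℝ) = ∑ u ∈ (finite_zeros hZ h0 M).toFinset,
      if u ∈ S then (analyticOrderNatAt Z u : ℝ) else 0 := by
  unfold cnt
  rw [finsum_mem_def]
  rw [finsum_eq_sum_of_support_subset (s := (finite_zeros hZ h0 M).toFinset)]
  · push_cast
    refine Finset.sum_congr rfl fun u _ => ?_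
    by_cases hu : u ∈ S
    · rw [indicator_of_mem hu, if_pos hu]
    · rw [indicator_of_notMem hu, if_neg hu]
      simp
  · intro u hu
    rw [Function.mem_support] at hu
    rw [Finite.coe_toFinset]
    have huS : u ∈ S := by
      by_contra h
      exact hu (indicator_of_notMem h _)
    rw [indicator_of_mem huS] at hu
    exact ⟨ord_zero hZ hu, mem_closedBall_zero_iff.2 (hS u huS)⟩

open Classical in
include hZ h0 in
lemma zsum_eq {g : ℂ → ℝ} {M : ℝ} (hg : ∀ u, M < ‖u‖ → g u = 0) :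
    zsum Z g = ∑ u ∈ (finite_zeros hZ h0 M).toFinset,
      if 0 < u.re ∧ u.re < 2 then (analyticOrderNatAt Z u : ℝ) * g u else 0 := by
  unfold zsum
  refine finsum_eq_sum_of_support_subset _ fun u hu => ?_
  rw [Function.mem_support] at hu
  rw [Finite.coe_toFinset]
  have h1 : 0 < u.re ∧ u.re < 2 := by
    by_contra h
    exact hu (if_neg h)
  rw [if_pos h1] at hu
  refine ⟨ord_zero hZ fun h => hu (by rw [h, Nat.cast_zero, zero_mul]), ?_⟩
  rw [mem_closedBall_zero_iff]
  by_contra h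
  exact hu (by rw [hg u (not_le.1 h), mul_zero])

include hZ h0 in
lemma cnt_le_zsum {S : Set ℂ} {g : ℂ → ℝ} {M : ℝ} (hg : ∀ u, M < ‖u‖ → g u = 0)
    (hg0 : ∀ u, 0 ≤ g u) (hS : ∀ u ∈ S, 0 < u.re ∧ u.re < 2 ∧ 1 ≤ g u) :
    (cnt Z S : ℝ) ≤ zsum Z g := by
  classical
  have hSM : ∀ u ∈ S, ‖u‖ ≤ M := by
    intro u hu
    by_contra h
    have := (hS u hu).2.2
    rw [hg u (not_le.1 h)] at this
    linarith
  rw [cnt_eq hZ h0 hSM, zsum_eq hZ h0 hg]
  refine Finset.sum_le_sum fun u _ => ?_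
  have h1 : (0 : ℝ) ≤ analyticOrderNatAt Z u := Nat.cast_nonneg _
  by_cases hu : u ∈ S
  · obtain ⟨h2, h3, h4⟩ := hS u hu
    rw [if_pos hu, if_pos ⟨h2, h3⟩]
    nlinarith
  · rw [if_neg hu]
    split_ifs
    · exact mul_nonneg h1 (hg0 u)
    · exact le_rfl

include hZ h0 in
lemma zsum_le_cnt {S : Set ℂ} {g : ℂ → ℝ} {M : ℝ} (hg : ∀ u, M < ‖u‖ → g u = 0)
    (hg1 : ∀ u, g u ≤ 1) (hSM : ∀ u ∈ S, ‖u‖ ≤ M)
    (hS : ∀ u, 0 < u.re → u.re < 2 → 0 < g u → u ∈ S) :
    zsum Z g ≤ (cnt Z S : ℝ) := by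
  classical
  rw [cnt_eq hZ h0 hSM, zsum_eq hZ h0 hg]
  refine Finset.sum_le_sum fun u _ => ?_
  have h1 : (0 : ℝ) ≤ analyticOrderNatAt Z u := Nat.cast_nonneg _
  split_ifs with h2 h3 h3
  · have := hg1 u
    nlinarith
  · have : g u ≤ 0 := by
      by_contra h
      exact h3 (hS u h2.1 h2.2 (not_le.1 h))
    nlinarith
  · exact h1
  · exact le_rfl

end

/-! ### test functions -/

/-- a trapezoid -/
noncomputable def tz (a b h : ℝ) (t : ℝ) : ℝ := max 0 (min 1 (min ((t - a) / h + 1) ((b - t) / h + 1)))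

lemma tz_cont (a b h : ℝ) : Continuous (tz a b h) := by
  unfold tz
  fun_prop

lemma tz_nn (a b h t : ℝ) : 0 ≤ tz a b h t := le_max_left _ _

lemma tz_le (a b h t : ℝ) : tz a b h t ≤ 1 := max_le zero_le_one (min_le_left _ _)

lemma tz_one {a b h t : ℝ} (hh : 0 < h) (h1 : a ≤ t) (h2 : t ≤ b) : tz a b h t = 1 := by
  unfold tz
  have e1 : 0 ≤ (t - a) / h := div_nonneg (by linarith) hh.le
  have e2 : 0 ≤ (b - t) / h := div_nonneg (by linarith) hh.le
  rw [min_eq_left (le_min (by linarith) (by linarith))]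
  norm_num

lemma tz_zero {a b h t : ℝ} (hh : 0 < h) (h1 : t ≤ a - h ∨ b + h ≤ t) : tz a b h t = 0 := by
  unfold tz
  rw [max_eq_left]
  rcases h1 with h1 | h1
  · refine (min_le_right _ _).trans ((min_le_left _ _).trans ?_)
    have : (t - a) / h ≤ -1 := by
      rw [div_le_iff₀ hh]
      linarith
    linarith
  · refine (min_le_right _ _).trans ((min_le_right _ _).trans ?_)
    have : (b - t) / h ≤ -1 := by
      rw [div_le_iff₀ hh]
      linarith
    linarith

lemma re_le_one_norm (t : ℝ) : ‖p1 t‖ ≤ 1 + |t| := by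
  refine (Complex.norm_le_abs_re_add_abs_im _).trans ?_
  simp [p1]

lemma p1_cont : Continuous p1 := by
  have : p1 = fun t : ℝ => (1 : ℂ) + (t : ℂ) * Complex.I := by
    funext t
    apply Complex.ext <;> simp [p1]
  rw [this]
  fun_prop

/-- the test function for the zeros away from the line -/
noncomputable def gf (T ε : ℝ) (u : ℂ) : ℝ := min 1 (|u.re - 1| / ε) * plat (T + 1) u

lemma plat_nn (M : ℝ) (c : ℂ) : 0 ≤ plat M c := le_max_left _ _

lemma gf_cont (T ε : ℝ) : Continuous (gf T ε) := by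
  unfold gf
  refine Continuous.mul ?_ (plat_cont _)
  have := Complex.continuous_re
  fun_prop

lemma gf_comp (T ε : ℝ) : HasCompactSupport (gf T ε) :=
  HasCompactSupport.mul_left (plat_comp _)

/-- **Zeros away from the line.** -/
theorem far_of {Z : ℂ → ℂ} (hZ : Differentiable ℂ Z) {z₀ : ℂ} (h0 : Z z₀ ≠ 0) {T ε x : ℝ}
    (hε : 0 < ε) (hx : |zsum Z (gf T ε) - x / π * ∫ t : ℝ, gf T ε (p1 t)| ≤ ε * x) :
    (cnt Z {ρ : ℂ | 0 < ρ.re ∧ ρ.re < 2 ∧ |ρ.im| ≤ T ∧ ε ≤ |ρ.re - 1|} : ℝ) ≤ ε * x := by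
  have hI : ∫ t : ℝ, gf T ε (p1 t) = 0 := by
    refine integral_eq_zero_of_ae (Eventually.of_forall fun t => ?_)
    unfold gf
    simp [p1]
  rw [hI, mul_zero, sub_zero] at hx
  refine le_trans ?_ ((le_abs_self _).trans hx)
  refine cnt_le_zsum hZ h0 (M := T + 3) (fun u hu => ?_) (fun u => ?_) ?_
  · unfold gf
    rw [plat_far, mul_zero]
    linarith
  · unfold gf
    exact mul_nonneg (le_min zero_le_one (by positivity)) (plat_nn _ _)
  · rintro u ⟨h1, h2, h3, h4⟩
    refine ⟨h1, h2, ?_⟩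
    unfold gf
    have h5 : 1 ≤ |u.re - 1| / ε := by rwa [le_div_iff₀ hε, one_mul]
    rw [min_eq_left h5, plat_near, one_mul]
    refine (Complex.norm_le_abs_re_add_abs_im _).trans ?_
    rw [abs_of_pos h1]
    linarith

/-- the test function for the zeros in an interval -/
noncomputable def gi (a b h M : ℝ) (u : ℂ) : ℝ := tz a b h u.im * plat M u

lemma gi_cont (a b h M : ℝ) : Continuous (gi a b h M) := by
  unfold gi
  exact ((tz_cont a b h).comp Complex.continuous_im).mul (plat_cont _)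

lemma gi_comp (a b h M : ℝ) : HasCompactSupport (gi a b h M) :=
  HasCompactSupport.mul_left (plat_comp _)

lemma plat_le (M : ℝ) (c : ℂ) : plat M c ≤ 1 := (le_abs_self _).trans (plat_abs M c)

lemma gi_nn (a b h M : ℝ) (u : ℂ) : 0 ≤ gi a b h M u := mul_nonneg (tz_nn _ _ _ _) (plat_nn _ _)

lemma gi_le (a b h M : ℝ) (u : ℂ) : gi a b h M u ≤ 1 := by
  unfold gi
  calc tz a b h u.im * plat M u ≤ 1 * 1 :=
        mul_le_mul (tz_le _ _ _ _) (plat_le _ _) (plat_nn _ _) zero_le_one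
    _ = 1 := one_mul _

lemma gi_far {a b h M : ℝ} (u : ℂ) (hu : M + 2 < ‖u‖) : gi a b h M u = 0 := by
  unfold gi
  rw [plat_far u hu, mul_zero]

/-- **An upper bound for the zeros in an interval.** -/
theorem up_of {Z : ℂ → ℂ} (hZ : Differentiable ℂ Z) {z₀ : ℂ} (h0 : Z z₀ ≠ 0) {a b M h e x : ℝ}
    (hab : a ≤ b) (hM : |a| + |b| + 3 ≤ M) (hh : 0 < h) (hx0 : 0 ≤ x)
    (hx : |zsum Z (gi a b h M) - x / π * ∫ t : ℝ, gi a b h M (p1 t)| ≤ e * x) :
    (cnt Z {ρ : ℂ | 0 < ρ.re ∧ ρ.re < 2 ∧ a < ρ.im ∧ ρ.im ≤ b} : ℝ) ≤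
      x / π * (b - a + 2 * h) + e * x := by
  have hI : ∫ t : ℝ, gi a b h M (p1 t) ≤ b - a + 2 * h := by
    have h1 : ∀ t : ℝ, gi a b h M (p1 t) ≤ (Icc (a - h) (b + h)).indicator (fun _ => (1 : ℝ)) t := by
      intro t
      by_cases ht : t ∈ Icc (a - h) (b + h)
      · rw [indicator_of_mem ht]
        exact gi_le _ _ _ _ _
      · rw [indicator_of_notMem ht]
        unfold gi
        have h2 : tz a b h (p1 t).im = 0 := by
          refine tz_zero hh ?_
          simp only [p1]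
          rw [mem_Icc, not_and_or, not_le, not_le] at ht
          rcases ht with ht | ht
          · exact Or.inl ht.le
          · exact Or.inr ht.le
        rw [h2, zero_mul]
    calc ∫ t : ℝ, gi a b h M (p1 t) ≤
          ∫ t : ℝ, (Icc (a - h) (b + h)).indicator (fun _ => (1 : ℝ)) t := by
          refine integral_mono_of_nonneg (Eventually.of_forall fun t => gi_nn _ _ _ _ _) ?_
            (Eventually.of_forall h1)
          rw [integrable_indicator_iff measurableSet_Icc]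
          exact integrableOn_const (by rw [Real.volume_Icc]; exact ENNReal.ofReal_ne_top)
      _ = b - a + 2 * h := by
          rw [integral_indicator measurableSet_Icc, setIntegral_const, smul_eq_mul, Measure.real,
            Real.volume_Icc, ENNReal.toReal_ofReal (by linarith)]
          ring
  have h2 := (abs_le.1 hx).2
  have hpi := Real.pi_pos
  have h3 : x / π * ∫ t : ℝ, gi a b h M (p1 t) ≤ x / π * (b - a + 2 * h) :=
    mul_le_mul_of_nonneg_left hI (by positivity)
  refine le_trans ?_ (show zsum Z (gi a b h M) ≤ _ by linarith)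
  refine cnt_le_zsum hZ h0 (M := M + 2) (fun u hu => gi_far u hu) (fun u => gi_nn _ _ _ _ _) ?_
  rintro u ⟨h4, h5, h6, h7⟩
  refine ⟨h4, h5, ?_⟩
  unfold gi
  rw [tz_one hh h6.le h7, plat_near, one_mul]
  refine (Complex.norm_le_abs_re_add_abs_im _).trans ?_
  rw [abs_of_pos h4]
  have h8 : |u.im| ≤ |a| + |b| := by
    rw [abs_le]
    constructor
    · linarith [neg_abs_le a, abs_nonneg b]
    · linarith [le_abs_self b, abs_nonneg a]
  linarith

/-- **A lower bound for the zeros in an interval.** -/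
theorem low_of {Z : ℂ → ℂ} (hZ : Differentiable ℂ Z) {z₀ : ℂ} (h0 : Z z₀ ≠ 0) {a b M h e x : ℝ}
    (hab : a + 2 * h ≤ b) (hM : |a| + |b| + 3 ≤ M) (hh : 0 < h) (hx0 : 0 ≤ x)
    (hx : |zsum Z (gi (a + h) (b - h) h M) -
      x / π * ∫ t : ℝ, gi (a + h) (b - h) h M (p1 t)| ≤ e * x) :
    x / π * (b - a - 2 * h) - e * x ≤
      (cnt Z {ρ : ℂ | 0 < ρ.re ∧ ρ.re < 2 ∧ a < ρ.im ∧ ρ.im ≤ b} : ℝ) := by
  have hbd : ∀ t : ℝ, a ≤ t → t ≤ b → |t| ≤ |a| + |b| := by
    intro t h1 h2
    rw [abs_le]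
    constructor
    · linarith [neg_abs_le a, abs_nonneg b]
    · linarith [le_abs_self b, abs_nonneg a]
  have hI : b - a - 2 * h ≤ ∫ t : ℝ, gi (a + h) (b - h) h M (p1 t) := by
    have h1 : ∀ t : ℝ, (Icc (a + h) (b - h)).indicator (fun _ => (1 : ℝ)) t ≤
        gi (a + h) (b - h) h M (p1 t) := by
      intro t
      by_cases ht : t ∈ Icc (a + h) (b - h)
      · rw [indicator_of_mem ht]
        unfold gi
        have h2 : tz (a + h) (b - h) h (p1 t).im = 1 := tz_one hh ht.1 ht.2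
        rw [h2, plat_near, one_mul]
        refine (re_le_one_norm t).trans ?_
        have := hbd t (by linarith [ht.1]) (by linarith [ht.2])
        linarith
      · rw [indicator_of_notMem ht]
        exact gi_nn _ _ _ _ _
    calc b - a - 2 * h = ∫ t : ℝ, (Icc (a + h) (b - h)).indicator (fun _ => (1 : ℝ)) t := by
          rw [integral_indicator measurableSet_Icc, setIntegral_const, smul_eq_mul, Measure.real,
            Real.volume_Icc, ENNReal.toReal_ofReal (by linarith)]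
          ring
      _ ≤ ∫ t : ℝ, gi (a + h) (b - h) h M (p1 t) := by
          refine integral_mono_of_nonneg (Eventually.of_forall fun t =>
            indicator_nonneg (fun _ _ => zero_le_one) t) ?_ (Eventually.of_forall h1)
          refine ((gi_cont _ _ _ _).comp p1_cont).integrable_of_hasCompactSupport ?_
          refine HasCompactSupport.of_support_subset_isCompact (isCompact_Icc (a := a) (b := b)) ?_
          intro t ht
          rw [Function.mem_support] at ht
          by_contra hc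
          apply ht
          unfold gi
          have h2 : tz (a + h) (b - h) h (p1 t).im = 0 := by
            refine tz_zero hh ?_
            simp only [p1]
            rw [mem_Icc, not_and_or, not_le, not_le] at hc
            rcases hc with hc | hc
            · exact Or.inl (by linarith)
            · exact Or.inr (by linarith)
          simp only [Function.comp_apply, h2, zero_mul]
  have h2 := (abs_le.1 hx).1
  have hpi := Real.pi_pos
  have h3 : x / π * (b - a - 2 * h) ≤ x / π * ∫ t : ℝ, gi (a + h) (b - h) h M (p1 t) :=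
    mul_le_mul_of_nonneg_left hI (by positivity)
  refine le_trans (show _ ≤ zsum Z (gi (a + h) (b - h) h M) by linarith) ?_
  refine zsum_le_cnt hZ h0 (M := M + 2) (fun u hu => gi_far u hu) (fun u => gi_le _ _ _ _ _) ?_ ?_
  · rintro u ⟨h4, h5, h6, h7⟩
    refine (Complex.norm_le_abs_re_add_abs_im _).trans ?_
    rw [abs_of_pos h4]
    have := hbd u.im h6.le h7
    linarith
  · intro u h4 h5 h6
    have h7 : ¬ (u.im ≤ (a + h) - h ∨ (b - h) + h ≤ u.im) := by
      intro hc
      unfold gi at h6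
      rw [tz_zero hh hc, zero_mul] at h6
      exact lt_irrefl _ h6
    rw [not_or, not_le, not_le] at h7
    exact ⟨h4, h5, by linarith [h7.1], by linarith [h7.2]⟩

end Pool.Agent.H465.NF
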